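import Pool.Agent.W587.MX.Stm

set_option autoImplicit false

namespace Pool.Agent.W82.MX

open Set Filter Topology Metric Pool.Agent.W587.MX

/-- An entire function vanishing frequently near a point is identically zero. -/
lemma zero_of_freq {E : ℂ → ℂ} (hE : Differentiable ℂ E) {a : ℂ}
    (h : ∃ᶠ z in 𝓝[≠] a, E z = 0) : ∀ z, E z = 0 := by
  have h1 : AnalyticOnNhd ℂ E univ := fun z _ => hE.analyticAt z
  have h2 := h1.eqOn_zero_of_preconnected_of_frequently_eq_zero isPreconnected_univ
    (mem_univ a) h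
  intro z
  exact h2 (mem_univ z)

/-- The zeros of a nonzero entire function in a closed ball are finite. -/
lemma zeros_finite {E : ℂ → ℂ} (hE : Differentiable ℂ E) (hne : ∃ z, E z ≠ 0) (R : ℝ) :
    ({z : ℂ | E z = 0} ∩ closedBall 0 R).Finite := by
  by_contra hinf
  have hinf' : ({z : ℂ | E z = 0} ∩ closedBall 0 R).Infinite := hinf
  obtain ⟨a, _, ha⟩ := hinf'.exists_accPt_of_subset_isCompact (isCompact_closedBall 0 R)
    inter_subset_right
  have hfr : ∃ᶠ z in 𝓝[≠] a, E z = 0 := by
    rw [accPt_iff_frequently_nhdsNE] at ha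
    exact ha.mono (fun z hz => hz.1)
  obtain ⟨z, hz⟩ := hne
  exact hz (zero_of_freq hE hfr z)

lemma deriv_F {f : ℂ → ℂ} (hf : Differentiable ℂ f) {z : ℂ} (hz : f z ≠ 0) :
    deriv (fun z => z * deriv f z / f z) z =
      ((deriv f z + z * deriv (deriv f) z) * f z - z * (deriv f z) ^ 2) / (f z) ^ 2 := by
  have hd : Differentiable ℂ (deriv f) := hf.deriv
  have h1 : HasDerivAt (fun z => z * deriv f z) (1 * deriv f z + z * deriv (deriv f) z) z :=
    (hasDerivAt_id' z).mul (hd z).hasDerivAt
  have h2 := (h1.div (hf z).hasDerivAt hz).deriv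
  have h3 : deriv (fun z => z * deriv f z / f z) z = _ := h2
  rw [h3]
  congr 1
  ring

theorem avoid : P3_AVOID := by
  intro f hf hf0 hne r0
  have hd : Differentiable ℂ (deriv f) := hf.deriv
  have hdd : Differentiable ℂ (deriv (deriv f)) := hd.deriv
  let D2 : ℂ → ℂ := fun z => (deriv f z + z * deriv (deriv f) z) * f z - z * (deriv f z) ^ 2
  have hD2 : Differentiable ℂ D2 :=
    (((hd.add (differentiable_id.mul hdd)).mul hf).sub (differentiable_id.mul (hd.pow 2)))
  have hD2ne : ∃ z, D2 z ≠ 0 := by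
    by_contra hcon
    push Not at hcon
    -- F is locally constant near 0
    have hopen : IsOpen {z : ℂ | f z ≠ 0} := isOpen_ne_fun hf.continuous continuous_const
    obtain ⟨ε, hε, hball⟩ := Metric.isOpen_iff.mp hopen 0 hf0
    have hF : ∀ z ∈ ball (0 : ℂ) ε, z * deriv f z / f z = 0 := by
      intro z hz
      have hdiff : DifferentiableOn ℂ (fun z => z * deriv f z / f z) (ball (0 : ℂ) ε) := by
        intro w hw
        have hw' : f w ≠ 0 := hball hw
        exact (((differentiableAt_id.mul (hd w)).div (hf w) hw')).differentiableWithinAt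
      have hc := (convex_ball (0 : ℂ) ε).is_const_of_fderivWithin_eq_zero (𝕜 := ℂ) hdiff
        (fun w hw => by
          have hw' : f w ≠ 0 := hball hw
          rw [fderivWithin_of_isOpen isOpen_ball hw]
          ext
          have h3 : deriv (fun z => z * deriv f z / f z) w = 0 := by
            rw [deriv_F hf hw']
            have := hcon w
            simp only [D2] at this
            rw [this, zero_div]
          simpa using h3) hz (mem_ball_self hε)
      simpa using hc
    have hfr : ∃ᶠ z in 𝓝[≠] (0 : ℂ), deriv f z = 0 := by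
      apply Eventually.frequently
      have h1 : ∀ᶠ z in 𝓝[≠] (0 : ℂ), z ∈ ball (0 : ℂ) ε :=
        mem_nhdsWithin_of_mem_nhds (ball_mem_nhds 0 hε)
      have h2 : ∀ᶠ z in 𝓝[≠] (0 : ℂ), z ≠ 0 := self_mem_nhdsWithin
      filter_upwards [h1, h2] with z hz hz0
      have h4 := hF z hz
      have hw' : f z ≠ 0 := hball hz
      rw [div_eq_zero_iff] at h4
      rcases h4 with h4 | h4
      · rcases mul_eq_zero.mp h4 with h5 | h5
        · exact absurd h5 hz0
        · exact h5
      · exact absurd h4 hw'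
    obtain ⟨z, hz⟩ := hne
    exact hz (zero_of_freq hd hfr z)
  set R : ℝ := max r0 0 with hR
  have hfin1 := zeros_finite hd hne (R + 1)
  have hfin2 := zeros_finite hD2 hD2ne (R + 1)
  have hfin : ((fun z : ℂ => ‖z‖) '' (({z : ℂ | deriv f z = 0} ∩ closedBall 0 (R + 1)) ∪
      ({z : ℂ | D2 z = 0} ∩ closedBall 0 (R + 1)))).Finite := (hfin1.union hfin2).image _
  have hinf : (Ioo R (R + 1)).Infinite := Ioo_infinite (by linarith)
  obtain ⟨r, hr, hr'⟩ := (hinf.sdiff hfin).nonempty
  refine ⟨r, lt_of_le_of_lt (le_max_left _ _) hr.1, lt_of_le_of_lt (le_max_right _ _) hr.1, ?_⟩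
  intro z hz hfz
  have hzb : z ∈ closedBall (0 : ℂ) (R + 1) := by
    rw [mem_closedBall_zero_iff, hz]
    exact hr.2.le
  refine ⟨?_, ?_⟩
  · intro h0
    exact hr' ⟨z, Or.inl ⟨h0, hzb⟩, hz⟩
  · rw [deriv_F hf hfz]
    intro h0
    rw [div_eq_zero_iff] at h0
    rcases h0 with h0 | h0
    · exact hr' ⟨z, Or.inr ⟨h0, hzb⟩, hz⟩
    · exact hfz (pow_eq_zero_iff (two_ne_zero) |>.mp h0)

end Pool.Agent.W82.MX
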